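import Mathlib

set_option autoImplicit false

namespace Pool.Agent.Results.MP_14f59b_co.Disproof

/-- A ballot for three offices: for each office a bijection from positions to candidates. -/
abbrev Ballot (a b c : ℕ) := (Fin a ≃ Fin a) × (Fin b ≃ Fin b) × (Fin c ≃ Fin c)

/-- In the office read by `σ`, each position is shared equally by all candidates. -/
def Fair {B : Type} {m : ℕ} (S : Finset B) (w : B → ℕ) (σ : B → (Fin m ≃ Fin m)) : Prop :=
  ∀ p c c' : Fin m, ∑ x ∈ S with σ x p = c, w x = ∑ x ∈ S with σ x p = c', w x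

/-- A balanced ballot system. -/
def Balanced {a b c : ℕ} (S : Finset (Ballot a b c)) (w : Ballot a b c → ℕ) : Prop :=
  S.Nonempty ∧ (∀ x ∈ S, 0 < w x) ∧
    Fair S w (fun x => x.1) ∧ Fair S w (fun x => x.2.1) ∧ Fair S w (fun x => x.2.2)

def A : Fin 14 → Fin 5 := ![2, 4, 1, 0, 3, 0, 4, 4, 0, 0, 1, 3, 2, 3]
def B : Fin 14 → Fin 6 := ![2, 1, 0, 1, 5, 0, 3, 4, 2, 4, 4, 2, 5, 3]
def C : Fin 14 → Fin 7 := ![1, 3, 2, 6, 5, 3, 0, 3, 5, 5, 0, 0, 4, 4]
def W : Fin 14 → ℕ := ![30, 5, 30, 30, 23, 5, 17, 20, 4, 3, 12, 1, 12, 18]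

def bal (i : Fin 14) : Ballot 5 6 7 :=
  (Equiv.addRight (A i), Equiv.addRight (B i), Equiv.addRight (C i))

lemma inj0 : ∀ i j, A i = A j → B i = B j → C i = C j → i = j := by decide +kernel

lemma bal_inj : Function.Injective bal := by
  intro i j h
  apply inj0
  · simpa [bal] using congrArg (fun x : Ballot 5 6 7 => x.1 0) h
  · simpa [bal] using congrArg (fun x : Ballot 5 6 7 => x.2.1 0) h
  · simpa [bal] using congrArg (fun x : Ballot 5 6 7 => x.2.2 0) h

def w (x : Ballot 5 6 7) : ℕ :=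
  ∑ i : Fin 14, if x.1 0 = A i ∧ x.2.1 0 = B i ∧ x.2.2 0 = C i then W i else 0

lemma w_bal : ∀ i, w (bal i) = W i := by decide +kernel

lemma fair {m : ℕ} (σ : Ballot 5 6 7 → (Fin m ≃ Fin m)) (t : ℕ)
    (h : ∀ p c : Fin m, (∑ i : Fin 14, if σ (bal i) p = c then W i else 0) = t) :
    Fair (Finset.univ.map ⟨bal, bal_inj⟩) w σ := by
  intro p c c'
  simp only [Finset.sum_filter, Finset.sum_map, Function.Embedding.coeFn_mk, w_bal]
  rw [h, h]

theorem result : ∃ n : ℕ, 1 ≤ n ∧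
    ∃ (S : Finset (Ballot (2 * n - 1) (2 * n) (2 * n + 1)))
      (w : Ballot (2 * n - 1) (2 * n) (2 * n + 1) → ℕ), Balanced S w ∧ S.card < 6 * n - 3 := by
  refine ⟨3, by norm_num, (Finset.univ.map ⟨bal, bal_inj⟩ : Finset (Ballot 5 6 7)), w,
    ⟨⟨bal 0, by simp⟩, ?_, fair _ 42 (by decide +kernel), fair _ 35 (by decide +kernel),
      fair _ 30 (by decide +kernel)⟩, by simp⟩
  intro x hx
  obtain ⟨i, -, rfl⟩ := Finset.mem_map.1 hx
  show 0 < w (bal i)
  rw [w_bal]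
  revert i
  decide

end Pool.Agent.Results.MP_14f59b_co.Disproof
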